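import Pool.Agent.Results.MP_28b024_mp.LocalLaw
import Pool.Agent.Results.MP_1906c1_mp.ScaleAtEdge
import Pool.Agent.V11324.GL.Gauss
import Pool.Agent.V11324.GL.Green

/-!
# Gaussian disorder, `d ≥ 3`: the local law below the kinetic scale, at all energies

`H_σ = Δ + σ ξ` on `ℤ^d`, `d ≥ 3`, `(Δψ)(x) = ∑_{|y-x|=1} ψ(y)`, iid standard Gaussian `ξ`, small
`σ > 0`. With probability at least `1 - exp(-σ^{-1/101})`:

* for all sites `|a| ≤ exp(σ^{-1/101})`, all energies `E` and all scales `s ≥ σ^{52/25}`, the spectral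
  measure `m` of `δ_a` satisfies
  `| m [E - s, E + s] - vol {k ∈ [0,1]^d : |∑ 2 cos 2πk_i - E| ≤ s} | ≤ σ^{1/202} s`, hence
  `m [E - s, E + s] ≤ K s`, and `m [E - s, E + s] ≥ c s` if `|E| ≤ 2 d - κ` and `s ≤ 1`;
* every `ℓ²`-eigenfunction `u` of `H_σ`, at any energy, satisfies `|u(a)|² ≤ K σ^{209/100} ‖u‖²` at all
  these sites.

The kinetic scale is `σ²`. The proof clips the Gaussian variables at `σ^{-1/150}` and uses the local
law for bounded centred laws of the starting files (`Pool/Agent/TH794/LL2`), whose event is a cylinder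
event over a finite box.
-/

set_option autoImplicit false

open scoped BigOperators ENNReal Topology
open MeasureTheory ProbabilityTheory Filter

namespace Pool.Agent.Results.MP_1906c1_mp.GaussianLocalLaw

open Pool.Agent.Results.MP_1906c1_mp.ScaleAtEdge

/-- the volume of `{k ∈ [0,1]^d : |∑ 2 cos 2πk_i - E| ≤ s}` -/
noncomputable def freeVol (d : ℕ) (E s : ℝ) : ℝ :=
  volume.real {k : Fin d → ℝ | (∀ i, k i ∈ Set.Icc (0 : ℝ) 1) ∧
    |∑ i, 2 * Real.cos (2 * Real.pi * k i) - E| ≤ s}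

open Pool.Agent.TH794.LL2 (Po LG Res LLaw KK KK_ge)
open Pool.Agent.V11324.GL

theorem freeVol_eq (d : ℕ) (E s : ℝ) :
    freeVol d E s = Pool.Agent.Results.MP_28b024_mp.LocalLaw.freeVol d (2 * d - E) s := by
  unfold freeVol Pool.Agent.Results.MP_28b024_mp.LocalLaw.freeVol
  congr 1
  ext k
  have h1 : ∑ i, (2 - 2 * Real.cos (2 * Real.pi * k i)) =
      2 * (d : ℝ) - ∑ i, 2 * Real.cos (2 * Real.pi * k i) := by
    rw [Finset.sum_sub_distrib]
    simp
    ring
  have h2 : |∑ i, (2 - 2 * Real.cos (2 * Real.pi * k i)) - (2 * d - E)| =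
      |∑ i, 2 * Real.cos (2 * Real.pi * k i) - E| := by
    rw [h1, ← abs_neg]
    congr 1
    ring
  simp only [Set.mem_ofPred_eq]
  rw [h2]

/-- reflection of the energies -/
theorem refl_res {d : ℕ} {σ lam : ℝ} {ξ ω : (Fin d → ℤ) → ℝ} {a : Fin d → ℤ} {m : Measure ℝ}
    (hω : ∀ x, lam * ω x = -(σ * ξ x)) (h : IsSpectralMeasure (H σ ξ) (Pi.single a 1) m) :
    Res d (fun x => 2 * d + lam * ω x) a (m.map fun x => 2 * d - x) := by
  intro z hz
  obtain ⟨u, hu, heq, hint⟩ := h.2 (2 * d - z) (by simpa using hz)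
  refine ⟨fun x => -u x, ?_, fun x => ?_, ?_⟩
  · refine hu.congr fun x => ?_
    rw [norm_neg]
  · rw [← heq x]
    unfold H Pool.Agent.W788.LD.Spec.S
    have h1 : ∑ i : Fin d, (-u (x + Pi.single i 1) + -u (x - Pi.single i 1)) =
        -∑ i : Fin d, (u (x + Pi.single i 1) + u (x - Pi.single i 1)) := by
      rw [← Finset.sum_neg_distrib]
      exact Finset.sum_congr rfl fun i _ => by ring
    rw [h1]
    have h2 : ((2 * d + lam * ω x : ℝ) : ℂ) = 2 * (d : ℂ) - ((σ * ξ x : ℝ) : ℂ) := by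
      rw [hω x]
      push_cast
      ring
    simp only [h2]
    ring
  · have hm : Measurable fun x : ℝ => 2 * (d : ℝ) - x := by fun_prop
    rw [integral_map hm.aemeasurable]
    · have h3 : ∀ x : ℝ, (((2 * (d : ℝ) - x : ℝ) : ℂ) - z)⁻¹ = -((x : ℂ) - (2 * d - z))⁻¹ := by
        intro x
        rw [← inv_neg]
        congr 1
        push_cast
        ring
      simp only [h3]
      rw [integral_neg, hint, ← tsum_neg]
      exact tsum_congr fun x => by ring
    · have : Measurable fun x : ℝ => ((x : ℂ) - z)⁻¹ := by fun_prop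
      exact this.aestronglyMeasurable

theorem refl_real (m : Measure ℝ) (c E s : ℝ) :
    (m.map fun x => c - x).real (Set.Icc (c - E - s) (c - E + s)) =
      m.real (Set.Icc (E - s) (E + s)) := by
  have hm : Measurable fun x : ℝ => c - x := by fun_prop
  rw [map_measureReal_apply hm measurableSet_Icc]
  congr 1
  ext x
  simp only [Set.mem_preimage, Set.mem_Icc]
  constructor
  · rintro ⟨h1, h2⟩
    exact ⟨by linarith, by linarith⟩
  · rintro ⟨h1, h2⟩
    exact ⟨by linarith, by linarith⟩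

theorem lg_congr {d : ℕ} {σ σ' : ℝ} {ξ ξ' : (Fin d → ℤ) → ℝ} {a : Fin d → ℤ} {E t : ℝ}
    {ur ui : (Fin d → ℤ) → ℝ} (h : LG d σ ξ a E t ur ui) (he : ∀ x, σ * ξ x = σ' * ξ' x) :
    LG d σ' ξ' a E t ur ui where
  sr := h.sr
  si := h.si
  er x := by rw [← he x]; exact h.er x
  ei x := by rw [← he x]; exact h.ei x

/-- **Theorem.** -/
theorem result (d : ℕ) (hd : 3 ≤ d) : ∃ K : ℝ, 0 < K ∧ ∀ κ : ℝ, 0 < κ → κ ≤ 1 →
    ∃ c σ₀ : ℝ, 0 < c ∧ 0 < σ₀ ∧ ∀ σ : ℝ, 0 < σ → σ ≤ σ₀ →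
      ∃ G : Set ((Fin d → ℤ) → ℝ), MeasurableSet G ∧
        1 - Real.exp (-σ ^ (-(1 / 101) : ℝ)) ≤
          (Measure.infinitePi fun _ : Fin d → ℤ => gaussianReal 0 1).real G ∧
        ∀ ξ ∈ G,
          -- the local law
          (∀ a : Fin d → ℤ, ‖a‖ ≤ Real.exp (σ ^ (-(1 / 101) : ℝ)) →
            ∀ m : Measure ℝ, IsSpectralMeasure (H σ ξ) (Pi.single a 1) m →
            ∀ E s : ℝ, σ ^ (52 / 25 : ℝ) ≤ s →
              |m.real (Set.Icc (E - s) (E + s)) - freeVol d E s| ≤ σ ^ (1 / 202 : ℝ) * s ∧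
              m.real (Set.Icc (E - s) (E + s)) ≤ K * s ∧
              (s ≤ 1 → |E| ≤ 2 * d - κ → c * s ≤ m.real (Set.Icc (E - s) (E + s)))) ∧
          -- all eigenfunctions are spread out
          ∀ E : ℝ, SpreadOut σ ξ E (K * σ ^ (209 / 100 : ℝ)) (Real.exp (σ ^ (-(1 / 101) : ℝ))) := by
  have hO := Pool.Agent.W918.BK.Osc.osc
  obtain ⟨K0, hK0⟩ : ∃ K, K = 1 + Pool.Agent.TH794.QD.CH d := ⟨_, rfl⟩
  have hCH := Pool.Agent.TH794.QD.CH_nonneg d
  have hK01 : 1 ≤ K0 := by rw [hK0]; linarith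
  have hKK := KK_ge d
  refine ⟨2 * K0 + 2 + KK d, by linarith, fun κ hκ hκ1 => ?_⟩
  obtain ⟨c1, hc1, hlow⟩ := Pool.Agent.TH794.QE.low_all d (by omega) κ hκ hκ1
  obtain ⟨c2, hc2⟩ : ∃ c2, c2 = min c1 1 := ⟨_, rfl⟩
  have hc20 : 0 < c2 := by rw [hc2]; exact lt_min hc1 one_pos
  have hc21 : c2 ≤ c1 := by rw [hc2]; exact min_le_left _ _
  have hc2K : c2 ≤ K0 := by
    rw [hc2]
    exact (min_le_right _ _).trans hK01
  -- the free volume
  have hfree : ∀ E s : ℝ, 0 < s → s ≤ 1 → |E| ≤ 2 * d - κ →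
      c2 ^ 2 / (8 * K0) * s ≤ freeVol d E s := by
    intro E s hs hs1 hE
    rw [freeVol_eq, ← Pool.Agent.Results.MP_28b024_mp.LocalLaw.band_vol]
    refine (Pool.Agent.Results.MP_28b024_mp.LocalLaw.two_sided
      (Pool.Agent.Results.MP_28b024_mp.LocalLaw.bandLaw d) (2 * d - E) s c2 K0 hs hs1 hc20 hc2K
      fun t ht ht1 => ?_).1
    rw [Pool.Agent.Results.MP_28b024_mp.LocalLaw.po_band d (2 * d - E) t ht]
    refine ⟨?_, by
      rw [hK0]
      exact Pool.Agent.Results.MP_28b024_mp.LocalLaw.gf_bd d hd _ _ ht ht1⟩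
    have h1 := hlow (2 * d - (2 * d - E)) t (by
      have : (2 * (d : ℝ) - (2 * d - E)) = E := by ring
      rw [this]
      exact hE) ht ht1
    have h2 := (Pool.Agent.TH794.QD.GF_im0 hO d hd
      (((2 * d - (2 * d - E) : ℝ) : ℂ) + (t : ℂ) * Complex.I) (by simp [ht])).2
    linarith
  have hupper : ∀ E s : ℝ, 0 < s → freeVol d E s ≤ 2 * K0 * s := by
    intro E s hs
    rw [freeVol_eq, ← Pool.Agent.Results.MP_28b024_mp.LocalLaw.band_vol]
    by_cases hs1 : s ≤ 1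
    · have h2 := (Pool.Agent.W788.LD.Spec.poisson
        (Pool.Agent.Results.MP_28b024_mp.LocalLaw.bandLaw d) (2 * d - E) s hs).1
      rw [Pool.Agent.TH794.LL2.Po_im (Pool.Agent.Results.MP_28b024_mp.LocalLaw.bandLaw d)
        (2 * d - E) s hs,
        Pool.Agent.Results.MP_28b024_mp.LocalLaw.po_band d (2 * d - E) s hs] at h2
      have h3 := Pool.Agent.Results.MP_28b024_mp.LocalLaw.gf_bd d hd (2 * d - (2 * d - E)) s hs hs1
      rw [← hK0] at h3
      have h4 := mul_le_mul_of_nonneg_left h3 (show 0 ≤ 2 * s by linarith)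
      linarith
    · have h5 : (Pool.Agent.Results.MP_28b024_mp.LocalLaw.bandLaw d).real
          (Set.Icc (2 * d - E - s) (2 * d - E + s)) ≤ 1 := measureReal_le_one
      have : 1 * 1 ≤ K0 * s := mul_le_mul hK01 (not_le.1 hs1).le (by norm_num) (by linarith)
      linarith
  -- the engine
  obtain ⟨y0, h0⟩ := gauss Pool.Agent.W193.BK.ES.es
    (Pool.Agent.W261.BK.third Pool.Agent.W540.BK.fac)
    (Pool.Agent.W240.BK.fluct (Pool.Agent.W240.BK.var Pool.Agent.W193.BK.ES.es))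
    Pool.Agent.W475.BK.inv hO Pool.Agent.W975.BK.sup
    (Pool.Agent.W465.BK.qb (Pool.Agent.W240.BK.two Pool.Agent.W918.BK.Osc.osc))
    Pool.Agent.W475.BK.low Pool.Agent.W790.BK.ADM.adm d hd
  obtain ⟨y2, hy2⟩ := Filter.eventually_atTop.1
    ((Pool.Agent.W788.BK.Num.ev2 12 (-(11 / 1000)) (-(1 / 200)) 0 (by norm_num)).and
    ((Pool.Agent.W788.BK.Num.ev2 (4 * KK d * (1 : ℝ) ^ (1 / 4 : ℝ)) (-(1 / 4)) (-(1 / 200)) 0
      (by norm_num)).and
    ((Pool.Agent.W788.BK.Num.ev2 (800 * KK d) (-(211 / 100)) (-(421 / 200)) 1 (by norm_num)).and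
    (Pool.Agent.W788.BK.Num.ev3 (16 * K0 / c2 ^ 2) (-(75 / 15049)) 0 (by norm_num)))))
  obtain ⟨y1, hy1⟩ : ∃ y1, y1 = max (max y0 y2) 1 := ⟨_, rfl⟩
  refine ⟨c2 ^ 2 / (16 * K0), Real.exp (-(150 / 149) * y1), by positivity, Real.exp_pos _, ?_⟩
  intro σ hσ hσ0
  obtain ⟨y, hy⟩ : ∃ y, y = 149 / 150 * Real.log (1 / σ) := ⟨_, rfl⟩
  have hlogσ : Real.log σ = -(150 / 149) * y := by
    rw [hy, one_div, Real.log_inv]
    ring
  have hyy1 : y1 ≤ y := by
    have h1 := Real.log_le_log hσ hσ0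
    rw [Real.log_exp, hlogσ] at h1
    linarith
  have hyy0 : y0 ≤ y := le_trans (by rw [hy1]; exact (le_max_left _ _).trans (le_max_left _ _)) hyy1
  have hyy2 : y2 ≤ y := le_trans (by rw [hy1]; exact (le_max_right _ _).trans (le_max_left _ _))
    hyy1
  have hyone : 1 ≤ y := le_trans (by rw [hy1]; exact le_max_right _ _) hyy1
  obtain ⟨n1, n2, n3, n4⟩ := hy2 y hyy2
  simp only [pow_zero, mul_one, pow_one] at n1 n2 n3
  have hpow : ∀ p : ℝ, σ ^ p = Real.exp (-(150 / 149 * p) * y) := by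
    intro p
    rw [Real.rpow_def_of_pos hσ, hlogσ]
    congr 1
    ring
  have e1 : σ ^ (-(1 / 101) : ℝ) = Real.exp (150 / 15049 * y) := by
    rw [hpow]
    congr 1
    ring
  have e2 : Real.exp (-(21 / 10) * y) ≤ σ ^ (52 / 25 : ℝ) := by
    rw [hpow]
    apply Real.exp_le_exp.2
    apply mul_le_mul_of_nonneg_right _ (by linarith)
    norm_num
  have e3 : Real.exp (-(1 / 200) * y) ≤ σ ^ (1 / 202 : ℝ) := by
    rw [hpow]
    apply Real.exp_le_exp.2
    apply mul_le_mul_of_nonneg_right _ (by linarith)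
    norm_num
  have e4 : Real.exp (-(211 / 100) * y) ≤ σ ^ (209 / 100 : ℝ) := by
    rw [hpow]
    apply Real.exp_le_exp.2
    apply mul_le_mul_of_nonneg_right _ (by linarith)
    norm_num
  have e5 : σ ^ (1 / 202 : ℝ) ≤ c2 ^ 2 / (16 * K0) := by
    rw [hpow]
    have h1 : Real.exp (-(75 / 15049) * y) = Real.exp (-(150 / 149 * (1 / 202)) * y) := by
      congr 1
      ring
    rw [← h1]
    simp only [zero_mul, Real.exp_zero] at n4
    rw [le_div_iff₀ (by positivity)]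
    have h2 : 16 * K0 / c2 ^ 2 * Real.exp (-(75 / 15049) * y) * c2 ^ 2 ≤ 1 * c2 ^ 2 := by
      gcongr
    have h3 : 16 * K0 / c2 ^ 2 * Real.exp (-(75 / 15049) * y) * c2 ^ 2 =
        Real.exp (-(75 / 15049) * y) * (16 * K0) := by
      field_simp
    linarith
  have e6 : σ ^ (1 / 202 : ℝ) ≤ 1 := by
    rw [hpow]
    apply Real.exp_le_one_iff.2
    have : 0 ≤ y := by linarith
    linarith
  have e7 : Real.exp (-1 * y) = σ * Real.exp (y / 149) := by
    have h1 : σ = Real.exp (-(150 / 149) * y) := by rw [← hlogσ, Real.exp_log hσ]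
    rw [h1, ← Real.exp_add]
    congr 1
    ring
  have hR : Real.exp (σ ^ (-(1 / 101) : ℝ)) ≤ Real.exp (Real.exp (y / 100)) := by
    rw [e1]
    apply Real.exp_le_exp.2
    apply Real.exp_le_exp.2
    linarith
  obtain ⟨Gf, G, hG, hP, hGf1, hGf2, hL, hF⟩ := h0 y hyy0
  refine ⟨G, hG, by rw [e1]; exact hP, fun ξ hξ => ?_⟩
  obtain ⟨B, hB⟩ : ∃ B, B = Real.exp (y / 149) := ⟨_, rfl⟩
  have hB0 : 0 < B := by rw [hB]; positivity
  have hLL := hL ξ hξ
  rw [← hB] at hLL e7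
  have hσξ : ∀ x, σ * ξ x = Real.exp (-1 * y) * (ξ x / B) := by
    intro x
    rw [e7]
    field_simp
  refine ⟨fun a ha m hm E s hs => ?_, fun E u hu he x hx => ?_⟩
  · have hs0 : 0 < s := lt_of_lt_of_le (Real.rpow_pos_of_pos hσ _) hs
    obtain ⟨m0, hm0, hr0⟩ := Pool.Agent.Results.MP_28b024_mp.LocalLaw.free_exists d a
    have hfm : IsFiniteMeasure m := hm.1
    have hres : Res d (fun x => 2 * d + Real.exp (-1 * y) * -(ξ x / B)) a
        (m.map fun x => 2 * d - x) := refl_res (fun x => by rw [hσξ x]; ring) hm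
    have h1 := Pool.Agent.TH794.LL2.det d (KK d) 1 0 y hyone (by simp) (by norm_num)
      (by linarith) n1 n2 n3 Gf hGf1 hGf2 (fun x => ξ x / B) (fun x => -(ξ x / B))
      (fun x => by ring) a (fun E ur ui h => hLL a (ha.trans hR) E ur ui h) hF
      (m.map fun x => 2 * d - x) m0 hres hr0 (2 * d - E) s (e2.trans hs)
    rw [refl_real, Pool.Agent.Results.MP_28b024_mp.LocalLaw.free_law d hd a m0 hr0 (2 * d - E) s
      hs0.le, ← freeVol_eq] at h1
    have h2 : |m.real (Set.Icc (E - s) (E + s)) - freeVol d E s| ≤ σ ^ (1 / 202 : ℝ) * s :=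
      h1.trans (mul_le_mul_of_nonneg_right e3 hs0.le)
    have h3 := abs_le.1 h2
    refine ⟨h2, ?_, fun hs1 hE => ?_⟩
    · have h4 := hupper E s hs0
      have h5 := mul_le_mul_of_nonneg_right e6 hs0.le
      have h6 : 0 ≤ (1 + KK d) * s := mul_nonneg (by linarith) hs0.le
      linarith [h3.2]
    · have h4 := hfree E s hs0 hs1 hE
      have h5 := mul_le_mul_of_nonneg_right e5 hs0.le
      have h6 : c2 ^ 2 / (8 * K0) * s = c2 ^ 2 / (16 * K0) * s + c2 ^ 2 / (16 * K0) * s := by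
        field_simp
        ring
      linarith [h3.1]
  · obtain ⟨t, ht⟩ : ∃ t, t = Real.exp (-(211 / 100) * y) := ⟨_, rfl⟩
    have ht0 : 0 < t := by rw [ht]; positivity
    obtain ⟨ur, ui, hLG⟩ := lg_exists σ ξ x E t ht0
    have h1 := eig_bound hLG ht0 u hu (fun z => by
      have := he z
      unfold H at this
      unfold Pool.Agent.W788.LD.Spec.S
      exact this)
    have h2 := hLL x (hx.trans hR) E ur ui (by
      rw [← ht]
      exact lg_congr hLG hσξ)
    have h3 := abs_le.1 h2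
    have h4 := abs_le.1 (hGf1 E)
    have h5 : Real.exp (-(11 / 1000) * y) ≤ 1 := Real.exp_le_one_iff.2 (by linarith)
    have h6 : ui x ≤ 2 * K0 + 2 + KK d := by linarith [h3.2, h4.2]
    have hA : 0 ≤ ∑' y, ‖u y‖ ^ 2 := tsum_nonneg fun y => sq_nonneg _
    have h7 : 0 ≤ ui x := by
      rw [← hLG.ward]
      have b1 : 0 ≤ ∑' y, ur y ^ 2 := tsum_nonneg fun y => sq_nonneg _
      have b2 : 0 ≤ ∑' y, ui y ^ 2 := tsum_nonneg fun y => sq_nonneg _
      positivity
    refine h1.trans (mul_le_mul_of_nonneg_right ?_ hA)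
    rw [mul_comm (2 * K0 + 2 + KK d)]
    rw [← ht] at e4
    exact mul_le_mul e4 h6 h7 (Real.rpow_pos_of_pos hσ _).le

end Pool.Agent.Results.MP_1906c1_mp.GaussianLocalLaw
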