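import Pool.Agent.V11324.GD.Loc
import Pool.Agent.V11324.GD.GQD

/-!
# Gaussian disorder, `d ≥ 3`: at all bulk energies eigenfunctions are long or negligible

`H_σ = Δ + σ ξ` on `ℤ^d`, `d ≥ 3`, `(Δψ)(x) = ∑_{|y-x|=1} ψ(y)`, iid standard Gaussian `ξ`. Call
`f ∈ ℓ²(ℤ^d)` *short* if it is centred somewhere and decays exponentially with a localization length
`≤ σ^{-(2+1/88-δ)}`:

  `|f(x)| ≤ σ^{-C} exp(-σ^{2+1/88-δ} |x - y|)` for all `x`, for some `y ∈ ℤ^d`.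

(`C` is arbitrarily large, `δ > 0` arbitrarily small.) For `σ ≤ σ₀`, with probability at least
`1 - exp(-σ^{-1/600})`, simultaneously for all sites `|a| ≤ exp(σ^{-1/600})` and all energies
`|E| ≤ 2d - κ`, with `η = σ^{2+1/44}` and `u = (H_σ - E - iη)⁻¹ δ_a`:

1. the local density of states at `a` and `E` on the scale `η` is bounded below,
   `η ∑_x |u(x)|² = Im ⟨δ_a, (H_σ - E - iη)⁻¹ δ_a⟩ ≥ m₀(κ, d) > 0`;
2. every orthonormal family `(φ_n)` of short eigenfunctions, `H_σ φ_n = E_n φ_n`, carries at most a small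
   part of it: `∑_n |φ_n(a)|² η / ((E_n - E)² + η²) ≤ ε`;
3. hence, if `H_σ` has a complete orthonormal system of eigenfunctions, then those that are *not* short
   carry almost everything: `∑_{φ_n not short} |φ_n(a)|² η / ((E_n - E)² + η²) ≥ m₀ - ε`.

So the point spectrum in the bulk, if any, is either negligible or made of eigenfunctions longer than
`σ^{-(2+1/88-δ)}`, beyond the kinetic scale `σ^{-2}`.
-/

set_option autoImplicit false

open scoped BigOperators ENNReal Topology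
open MeasureTheory ProbabilityTheory Filter Set

namespace Pool.Agent.Results.MP_1906c1_mp.GaussianLocalizationLength

open Pool.Agent.Results.MP_1906c1_mp.ScaleAtEdge
open Pool.Agent.V11324.GD.GQD (IsGreen green_rs green_unique)

/-- the scale `η = σ^{2+1/44}` -/
noncomputable def scale (σ : ℝ) : ℝ := σ ^ (2 + 1 / 44 : ℝ)

/-- an orthonormal family in `ℓ²(ℤ^d)` of eigenfunctions of `H_σ`, `H_σ φ_n = E_n φ_n` -/
structure IsEigenFamily {d : ℕ} {ι : Type} (σ : ℝ) (ξ : (Fin d → ℤ) → ℝ)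
    (φ : ι → (Fin d → ℤ) → ℂ) (E : ι → ℝ) : Prop where
  sq : ∀ n, Summable fun x => ‖φ n x‖ ^ 2
  norm : ∀ n, ∑' x, ‖φ n x‖ ^ 2 = 1
  orth : ∀ m n, m ≠ n → ∑' x, (starRingEnd ℂ) (φ m x) * φ n x = 0
  eig : ∀ n x, H σ ξ (φ n) x = (E n : ℂ) * φ n x

/-- complete: only `0` is orthogonal to all `φ_n` -/
def IsComplete {d : ℕ} {ι : Type} (φ : ι → (Fin d → ℤ) → ℂ) : Prop :=
  ∀ u : (Fin d → ℤ) → ℂ, (Summable fun x => ‖u x‖ ^ 2) →
    (∀ n, ∑' x, (starRingEnd ℂ) (φ n x) * u x = 0) → ∀ x, u x = 0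

/-- short: centred somewhere, with a localization length at most `σ^{-(2+1/88-δ)}` -/
def Short {d : ℕ} (σ C δ : ℝ) (f : (Fin d → ℤ) → ℂ) : Prop :=
  ∃ y : Fin d → ℤ, ∀ x, ‖f x‖ ≤ σ ^ (-C) * Real.exp (-(σ ^ (2 + 1 / 88 - δ) * ‖x - y‖))

/-- the part `|φ(a)|² η / ((E' - E)² + η²)` of an eigenfunction with eigenvalue `E'` in the local
density of states at the energy `E` -/
noncomputable def part {d : ℕ} (σ : ℝ) (a : Fin d → ℤ) (E E' : ℝ) (f : (Fin d → ℤ) → ℂ) : ℝ :=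
  ‖f a‖ ^ 2 * (scale σ / ((E' - E) ^ 2 + scale σ ^ 2))

/-- the local density of states `η ∑_x |u(x)|² = Im ⟨δ_a, (H_σ - E - iη)⁻¹ δ_a⟩` is at least `m0` -/
def TotalBound {d : ℕ} (m0 σ : ℝ) (ξ : (Fin d → ℤ) → ℝ) (a : Fin d → ℤ) (E : ℝ) : Prop :=
  (∃! u, IsGreen σ ξ a E (scale σ) u) ∧
    ∀ u, IsGreen σ ξ a E (scale σ) u → m0 ≤ scale σ * ∑' x, ‖u x‖ ^ 2

/-- orthonormal families of short eigenfunctions carry at most `ε` -/
def ShortBound {d : ℕ} (C δ ε σ : ℝ) (ξ : (Fin d → ℤ) → ℝ) (a : Fin d → ℤ) (E : ℝ) : Prop :=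
  ∀ (ι : Type) (φ : ι → (Fin d → ℤ) → ℂ) (En : ι → ℝ), IsEigenFamily σ ξ φ En →
    (∀ n, Short σ C δ (φ n)) →
      (Summable fun n => part σ a E (En n) (φ n)) ∧ ∑' n, part σ a E (En n) (φ n) ≤ ε

/-- in a complete orthonormal system of eigenfunctions those that are not short carry at least `m` -/
def LongBound {d : ℕ} (C δ m σ : ℝ) (ξ : (Fin d → ℤ) → ℝ) (a : Fin d → ℤ) (E : ℝ) : Prop :=
  ∀ (ι : Type) (φ : ι → (Fin d → ℤ) → ℂ) (En : ι → ℝ), IsEigenFamily σ ξ φ En → IsComplete φ →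
    (Summable fun n : {n // ¬ Short σ C δ (φ n)} => part σ a E (En n.1) (φ n.1)) ∧
      m ≤ ∑' n : {n // ¬ Short σ C δ (φ n)}, part σ a E (En n.1) (φ n.1)

/-- **Theorem.** -/
theorem result (d : ℕ) (hd : 3 ≤ d) (κ : ℝ) (hκ : 0 < κ) (hκ1 : κ ≤ 1) : ∃ m0 : ℝ, 0 < m0 ∧
    ∀ C δ ε : ℝ, 0 < δ → δ ≤ 1 → 0 < ε → ∃ σ₀ : ℝ, 0 < σ₀ ∧ ∀ σ : ℝ, 0 < σ → σ ≤ σ₀ →
      ∃ G : Set ((Fin d → ℤ) → ℝ), MeasurableSet G ∧
        1 - Real.exp (-σ ^ (-(1 / 600) : ℝ)) ≤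
          (Measure.infinitePi fun _ : Fin d → ℤ => gaussianReal 0 1).real G ∧
        ∀ ξ ∈ G, ∀ a : Fin d → ℤ, ‖a‖ ≤ Real.exp (σ ^ (-(1 / 600) : ℝ)) →
          ∀ E : ℝ, |E| ≤ 2 * d - κ →
            TotalBound m0 σ ξ a E ∧ ShortBound C δ ε σ ξ a E ∧ LongBound C δ (m0 - ε) σ ξ a E := by
  obtain ⟨m0, hm0, h⟩ := Pool.Agent.V11324.GD.loc_gauss Pool.Agent.W193.BK.ES.es
    (Pool.Agent.W261.BK.third Pool.Agent.W540.BK.fac)
    (Pool.Agent.W240.BK.fluct (Pool.Agent.W240.BK.var Pool.Agent.W193.BK.ES.es))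
    Pool.Agent.W475.BK.inv Pool.Agent.W975.BK.sup
    (Pool.Agent.W465.BK.qb (Pool.Agent.W240.BK.two Pool.Agent.W918.BK.Osc.osc))
    Pool.Agent.W475.BK.low Pool.Agent.W790.BK.ADM.adm Pool.Agent.W540.BK.fac
    Pool.Agent.W918.BK.Osc.osc d hd κ hκ hκ1
  refine ⟨m0, hm0, fun C δ ε hδ hδ1 hε => ?_⟩
  obtain ⟨l0, hl0, h4⟩ := h C δ ε hδ hδ1 hε
  refine ⟨l0, hl0, fun σ hσ hσσ => ?_⟩
  obtain ⟨G, hG, hP, hL⟩ := h4 σ hσ hσσ
  refine ⟨G, hG, hP, fun ξ hξ a ha E hE => ?_⟩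
  have hη0 : 0 < scale σ := by
    unfold scale
    positivity
  have hL' : ∀ u, Pool.Agent.TH794.QE.Rs d (fun x => -(σ * ξ x)) a (-E) (scale σ) u → _ :=
    fun u hu => hL ξ hξ a ha E hE u hu
  have hun := green_unique σ ξ a E (scale σ) hη0
  obtain ⟨u0, hu0, -⟩ := hun
  have hr0 := green_rs hu0
  obtain ⟨hm, hloc⟩ := hL' _ hr0
  have hpart : ∀ (E' : ℝ) (f : (Fin d → ℤ) → ℂ), part σ a E E' f =
      ‖f a‖ ^ 2 * (scale σ / ((-E' - (-E)) ^ 2 + scale σ ^ 2)) := by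
    intro E' f
    unfold part
    congr 3
    ring
  have heig : ∀ (f : (Fin d → ℤ) → ℂ) (E' : ℝ), (∀ x, H σ ξ f x = (E' : ℂ) * f x) →
      ∀ x, -Pool.Agent.W788.LD.Spec.S f x + ((-(σ * ξ x) : ℝ) : ℂ) * f x =
        ((-E' : ℝ) : ℂ) * f x := by
    intro f E' hf x
    have h1 := hf x
    rw [Pool.Agent.V11324.GD.GQD.H_eq] at h1
    push_cast at h1 ⊢
    linear_combination -h1
  have hfam : ∀ (ι : Type) (φ : ι → (Fin d → ℤ) → ℂ) (En : ι → ℝ), IsEigenFamily σ ξ φ En →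
      (∀ n, Short σ C δ (φ n)) → ∀ F : Finset ι, ∑ n ∈ F, part σ a E (En n) (φ n) ≤ ε := by
    intro ι φ En hEn hc' F
    choose y hy using hc'
    simp only [hpart]
    exact hloc _ (Pool.Agent.V11260.Loc.ortho φ hEn.sq hEn.norm hEn.orth) (fun n => -En n)
      (fun n => heig (φ n) (En n) (hEn.eig n)) y hy F
  refine ⟨⟨green_unique σ ξ a E (scale σ) hη0, fun u hu => ?_⟩, fun ι φ En hEn hc' => ?_,
    fun ι φ En hEn hcom => ?_⟩
  · have h1 := (hL' _ (green_rs hu)).1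
    simp only [norm_neg, RCLike.norm_conj] at h1
    exact h1
  · have h0 : ∀ n, 0 ≤ part σ a E (En n) (φ n) := fun n => by
      unfold part
      positivity
    have h1 := hfam ι φ En hEn hc'
    exact ⟨summable_of_sum_le h0 h1, Real.tsum_le_of_sum_le h0 h1⟩
  · simp only [hpart]
    refine Pool.Agent.V11260.Loc.basis_part2 hr0 hη0 φ hEn.sq hEn.norm hEn.orth hcom
      (fun n => -En n) (fun n => heig (φ n) (En n) (hEn.eig n))
      (fun n => Short σ C δ (φ n)) m0 ε hm (fun F => ?_)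
    have h2 := hfam _ (fun n : {n // Short σ C δ (φ n)} => φ n.1) (fun n => En n.1)
      ⟨fun n => hEn.sq n.1, fun n => hEn.norm n.1,
        fun m n hmn => hEn.orth m.1 n.1 fun h => hmn (Subtype.ext h), fun n x => hEn.eig n.1 x⟩
      (fun n => n.2) F
    simp only [hpart] at h2
    exact h2

end Pool.Agent.Results.MP_1906c1_mp.GaussianLocalizationLength
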