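import Pool.Agent.V11324.GD.Gtime
import Pool.Agent.V11324.GD.Exist
import Pool.Agent.Results.MP_1906c1_mp.ScaleAtEdge
import Pool.Agent.W193.BK.ES
import Pool.Agent.W240.BK.Var
import Pool.Agent.W540.BK.Fac
import Pool.Agent.W240.BK.Fluct
import Pool.Agent.W918.BK.Osc
import Pool.Agent.W240.BK.Two
import Pool.Agent.W465.BK.QB
import Pool.Agent.W475.BK.Low
import Pool.Agent.W975.BK.Sup
import Pool.Agent.W790.BK.ADM
import Pool.Agent.W475.BK.Inv
import Pool.Agent.W261.BK.Third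

/-!
# Gaussian disorder, `d ≥ 3`: quantum diffusion in real time, beyond the kinetic time

`H_σ = Δ + σ ξ` on `ℤ^d`, `d ≥ 3`, `(Δψ)(x) = ∑_{|y-x|=1} ψ(y)`, iid standard Gaussian `ξ`.

For every `σ`, every configuration `ξ` and every site `a` there is exactly one `ψ(t) = e^{-itH} δ_a`.
For every `ε > 0`, `K` and `κ > 0`, for all small `σ > 0`, with probability at least
`1 - 2 exp(-σ^{-1/600})`, simultaneously for all sites `|a| ≤ exp(σ^{-1/600})`: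

* for all times `σ^{-(2 + 1/79)} ≤ T ≤ σ^{-(2 + 1/45)}` and all `p ∈ ℝ^d` with `|p|² ≤ K σ² / T`,
  `| (1/T) ∫_0^T ( ∑_x e^{i p·(x - a)} |ψ(t, x)|² - (1/π) ∫_{-2d}^{2d} Im g₀(E) e^{- 𝒟(E) |p|² t} dE ) dt |
  ≤ ε`, where `𝒟(E) = 2 Im g₁(E) / (σ² (Im g₀(E))²)`;
* at every energy `|E| ≤ 2d - κ`, every `σ^{2 + 1/44} ≤ η ≤ σ^{2 + 1/80}` and every `p ∈ ℝ^d` with
  `|p|² ≤ K η σ²`, for `u = (H - E - iη)⁻¹ δ_a`:
  `η ∑_x e^{i p·(x - a)} |u(x)|² = Im g₀(E) / (1 + |p|² Im g₁(E) / (η σ² (Im g₀(E))²)) + O(σ^{1/201})`.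

(The kinetic time is of the order `σ^{-2}`.) Here `g₀`, `g₁` are explicit integrals, the boundary
values of the free resolvent and of the free resolvent with the weight `sin²(2πk₁)`. The proof clips
the Gaussian variables at `σ^{-1/1000}`; the laws of the starting files (`Pool/Agent/TH794/HK`) are
redone for a bounded law whose variance tends to zero, as cylinder events, one site at a time.
-/

set_option autoImplicit false

open scoped BigOperators ENNReal Topology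
open MeasureTheory ProbabilityTheory Filter Set

namespace Pool.Agent.Results.MP_1906c1_mp.GaussianQuantumDiffusion

open Pool.Agent.Results.MP_1906c1_mp.ScaleAtEdge

/-- `ψ(t) = e^{-itH} δ_a`: the solution in `ℓ²(ℤ^d)` of the Schrödinger equation
`i ∂_t ψ = H_σ ψ`, `ψ(0) = δ_a`; its norm is one at all times -/
structure IsEvolution {d : ℕ} (σ : ℝ) (ξ : (Fin d → ℤ) → ℝ) (a : Fin d → ℤ)
    (ψ : ℝ → (Fin d → ℤ) → ℂ) : Prop where
  init : ∀ x, ψ 0 x = if x = a then 1 else 0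
  schrodinger : ∀ t x, HasDerivAt (fun s => ψ s x) (-Complex.I * H σ ξ (ψ t) x) t
  norm : ∀ t, HasSum (fun x => ‖ψ t x‖ ^ 2) 1

/-- `u = (H_σ - E - iη)⁻¹ δ_a` in `ℓ²(ℤ^d)` -/
structure IsGreen {d : ℕ} (σ : ℝ) (ξ : (Fin d → ℤ) → ℝ) (a : Fin d → ℤ) (E η : ℝ)
    (u : (Fin d → ℤ) → ℂ) : Prop where
  sq : Summable fun x => ‖u x‖ ^ 2
  eq : ∀ x, H σ ξ u x - ((E : ℂ) + (η : ℂ) * Complex.I) * u x = if x = a then 1 else 0

/-- the characteristic function of the position, `∑_x e^{i p·(x - a)} |u(x)|²` -/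
noncomputable def charFn {d : ℕ} (a : Fin d → ℤ) (p : Fin d → ℝ) (u : (Fin d → ℤ) → ℂ) : ℂ :=
  ∑' x : Fin d → ℤ, Complex.exp (Complex.I * ((∑ i, p i * ((x i : ℝ) - a i) : ℝ) : ℂ)) *
    ((‖u x‖ ^ 2 : ℝ) : ℂ)

/-- `∫_0^1 exp(-is · 2 cos 2πx) dx` -/
noncomputable def p0 (s : ℝ) : ℂ :=
  ∫ x in (0 : ℝ)..1, Complex.exp (Complex.I * ((-s * (2 * Real.cos (2 * Real.pi * x)) : ℝ) : ℂ))

/-- `∫_0^1 sin²(2πx) exp(-is · 2 cos 2πx) dx` -/
noncomputable def p1 (s : ℝ) : ℂ :=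
  ∫ x in (0 : ℝ)..1, ((Real.sin (2 * Real.pi * x) ^ 2 : ℝ) : ℂ) *
    Complex.exp (Complex.I * ((-s * (2 * Real.cos (2 * Real.pi * x)) : ℝ) : ℂ))

/-- the boundary value `∫_{[0,1]^d} (∑ 2 cos 2πk_i - E - i0)⁻¹ dk` -/
noncomputable def g0 (d : ℕ) (E : ℝ) : ℂ :=
  Complex.I * ∫ s in Set.Ioi (0 : ℝ), p0 s ^ d * Complex.exp (Complex.I * (E : ℂ) * s)

/-- the boundary value `∫_{[0,1]^d} sin²(2πk_1) (∑ 2 cos 2πk_i - E - i0)⁻¹ dk` -/
noncomputable def g1 (d : ℕ) (E : ℝ) : ℂ :=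
  Complex.I * ∫ s in Set.Ioi (0 : ℝ), p1 s * p0 s ^ (d - 1) * Complex.exp (Complex.I * (E : ℂ) * s)

/-- `(1/π) ∫_{-2d}^{2d} Im g₀(E) exp(-𝒟(E) P t) dE`, `𝒟(E) = 2 Im g₁(E) / (s (Im g₀(E))²)`, where
`s = σ²` is the variance of the potential and `P = |p|²` -/
noncomputable def profile (d : ℕ) (s P t : ℝ) : ℝ :=
  Real.pi⁻¹ * ∫ E in Icc (-(2 * d : ℝ)) (2 * d),
    (g0 d E).im * Real.exp (-(2 * (g1 d E).im / (s * (g0 d E).im ^ 2)) * P * t)

/-- the profile of the resolvent, `Im g₀(E) / (1 + (P / (η s)) Im g₁(E) / (Im g₀(E))²)` -/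
noncomputable def profileRes (d : ℕ) (s P η E : ℝ) : ℝ :=
  (g0 d E).im / (1 + P / (η * s) * ((g1 d E).im / (g0 d E).im ^ 2))

theorem g0_eq (d : ℕ) (E : ℝ) : g0 d E = Pool.Agent.TH794.QD.GF (Pool.Agent.TH794.QD.F0 d) E := rfl

theorem g1_eq (d : ℕ) (E : ℝ) : g1 d E = Pool.Agent.TH794.QD.GF (Pool.Agent.TH794.QD.F1 d) E := rfl

theorem H_eq {d : ℕ} (σ : ℝ) (ξ : (Fin d → ℤ) → ℝ) (u : (Fin d → ℤ) → ℂ) (x : Fin d → ℤ) :
    H σ ξ u x = Pool.Agent.W788.LD.Spec.S u x + ((σ * ξ x : ℝ) : ℂ) * u x := rfl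

theorem S_conj {d : ℕ} (u : (Fin d → ℤ) → ℂ) (x : Fin d → ℤ) :
    (starRingEnd ℂ) (Pool.Agent.W788.LD.Spec.S u x) =
      Pool.Agent.W788.LD.Spec.S (fun y => (starRingEnd ℂ) (u y)) x := by
  unfold Pool.Agent.W788.LD.Spec.S
  rw [map_sum]
  exact Finset.sum_congr rfl fun i _ => map_add _ _ _

/-- complex conjugation -/
theorem evo_conj {d : ℕ} {σ : ℝ} {ξ : (Fin d → ℤ) → ℝ} {a : Fin d → ℤ}
    {ψ : ℝ → (Fin d → ℤ) → ℂ} (h : IsEvolution σ ξ a ψ) :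
    Pool.Agent.TH794.QD.Sol d (fun x => -(σ * ξ x)) a (fun t x => (starRingEnd ℂ) (ψ t x)) := by
  refine ⟨fun x => ?_, fun s x => ?_, fun s => ?_⟩
  · rw [h.init]
    split_ifs <;> simp
  · have h1 := (Complex.conjCLE.toContinuousLinearMap.hasFDerivAt (x := ψ s x)).comp_hasDerivAt s
      (h.schrodinger s x)
    refine h1.congr_deriv ?_
    rw [H_eq]
    have e1 : (Complex.conjCLE.toContinuousLinearMap : ℂ →L[ℝ] ℂ) (-Complex.I *
        (Pool.Agent.W788.LD.Spec.S (ψ s) x + ((σ * ξ x : ℝ) : ℂ) * ψ s x)) =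
        (starRingEnd ℂ) (-Complex.I *
        (Pool.Agent.W788.LD.Spec.S (ψ s) x + ((σ * ξ x : ℝ) : ℂ) * ψ s x)) := rfl
    rw [e1, map_mul, map_neg, Complex.conj_I, map_add, S_conj, map_mul, Complex.conj_ofReal]
    push_cast
    ring
  · simp only [RCLike.norm_conj]
    exact h.norm s

theorem conj_evo {d : ℕ} {σ : ℝ} {ξ : (Fin d → ℤ) → ℝ} {a : Fin d → ℤ}
    {ψ : ℝ → (Fin d → ℤ) → ℂ} (h : Pool.Agent.TH794.QD.Sol d (fun x => -(σ * ξ x)) a ψ) :
    IsEvolution σ ξ a (fun t x => (starRingEnd ℂ) (ψ t x)) := by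
  refine ⟨fun x => ?_, fun s x => ?_, fun s => ?_⟩
  · rw [h.init]
    split_ifs <;> simp
  · have h1 := (Complex.conjCLE.toContinuousLinearMap.hasFDerivAt (x := ψ s x)).comp_hasDerivAt s
      (h.ode s x)
    refine h1.congr_deriv ?_
    rw [H_eq]
    have e1 : (Complex.conjCLE.toContinuousLinearMap : ℂ →L[ℝ] ℂ) (-Complex.I *
        (-Pool.Agent.W788.LD.Spec.S (ψ s) x + ((-(σ * ξ x) : ℝ) : ℂ) * ψ s x)) =
        (starRingEnd ℂ) (-Complex.I *
        (-Pool.Agent.W788.LD.Spec.S (ψ s) x + ((-(σ * ξ x) : ℝ) : ℂ) * ψ s x)) := rfl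
    rw [e1, map_mul, map_neg, Complex.conj_I, map_add, map_neg, S_conj, map_mul,
      Complex.conj_ofReal]
    push_cast
    ring
  · simp only [RCLike.norm_conj]
    exact h.norm s

/-- existence and uniqueness of the evolution -/
theorem evo_unique {d : ℕ} (σ : ℝ) (ξ : (Fin d → ℤ) → ℝ) (a : Fin d → ℤ) :
    ∃! ψ, IsEvolution σ ξ a ψ := by
  obtain ⟨φ, hφ⟩ := Pool.Agent.V11324.GD.exists_solU (fun x => -(σ * ξ x)) a
  refine ⟨_, conj_evo hφ, fun ψ hψ => ?_⟩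
  have h1 := Pool.Agent.V11324.GD.sol_unique _ a _ _ (evo_conj hψ) hφ
  funext t x
  have h2 := congrFun (congrFun h1 t) x
  rw [← h2, Complex.conj_conj]

/-- the Green function and reflection -/
theorem green_rs {d : ℕ} {σ : ℝ} {ξ : (Fin d → ℤ) → ℝ} {a : Fin d → ℤ} {E η : ℝ}
    {u : (Fin d → ℤ) → ℂ} (h : IsGreen σ ξ a E η u) :
    Pool.Agent.TH794.QE.Rs d (fun x => -(σ * ξ x)) a (-E) η
      (fun x => -(starRingEnd ℂ) (u x)) := by
  refine ⟨?_, fun x => ?_⟩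
  · refine h.sq.congr fun x => ?_
    rw [norm_neg, RCLike.norm_conj]
  · have h1 := congrArg (starRingEnd ℂ) (h.eq x)
    rw [H_eq, map_sub, map_add, S_conj, map_mul, map_mul, map_add, map_mul, Complex.conj_ofReal,
      Complex.conj_ofReal, Complex.conj_ofReal, Complex.conj_I] at h1
    have h2 : (starRingEnd ℂ) (if x = a then (1 : ℂ) else 0) = if x = a then 1 else 0 := by
      split_ifs <;> simp
    rw [h2] at h1
    rw [← h1]
    have e2 : Pool.Agent.W788.LD.Spec.S (fun x => -(starRingEnd ℂ) (u x)) x =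
        -Pool.Agent.W788.LD.Spec.S (fun x => (starRingEnd ℂ) (u x)) x := by
      unfold Pool.Agent.W788.LD.Spec.S
      rw [← Finset.sum_neg_distrib]
      exact Finset.sum_congr rfl fun i _ => by ring
    rw [e2]
    push_cast
    ring

/-- existence and uniqueness of the Green function -/
theorem green_unique {d : ℕ} (σ : ℝ) (ξ : (Fin d → ℤ) → ℝ) (a : Fin d → ℤ) (E η : ℝ)
    (hη : 0 < η) : ∃! u, IsGreen σ ξ a E η u := by
  obtain ⟨ur, ui, h⟩ := Pool.Agent.V11324.GL.lg_exists σ ξ a E η hη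
  have hex : IsGreen σ ξ a E η (fun x => (ur x : ℂ) + (ui x : ℂ) * Complex.I) := by
    refine ⟨?_, fun x => ?_⟩
    · refine (h.sr.add h.si).congr fun x => ?_
      rw [← Complex.normSq_eq_norm_sq, Complex.normSq_apply]
      simp
      ring
    · have h1 := congrArg (fun r : ℝ => (r : ℂ)) (h.er x)
      have h2 := congrArg (fun r : ℝ => (r : ℂ)) (h.ei x)
      unfold H
      have e1 : ∑ i : Fin d, (((ur (x + Pi.single i 1) : ℂ) + (ui (x + Pi.single i 1) : ℂ) *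
          Complex.I) + ((ur (x - Pi.single i 1) : ℂ) + (ui (x - Pi.single i 1) : ℂ) *
          Complex.I)) = ((∑ i, (ur (x + Pi.single i 1) + ur (x - Pi.single i 1)) : ℝ) : ℂ) +
          ((∑ i, (ui (x + Pi.single i 1) + ui (x - Pi.single i 1)) : ℝ) : ℂ) * Complex.I := by
        push_cast
        rw [Finset.sum_mul, ← Finset.sum_add_distrib]
        exact Finset.sum_congr rfl fun i _ => by ring
      rw [e1]
      have e2 : ((if x = a then (1 : ℝ) else 0 : ℝ) : ℂ) = if x = a then 1 else 0 := by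
        split_ifs <;> simp
      rw [← e2]
      push_cast at h1 h2 ⊢
      linear_combination h1 + Complex.I * h2 - (η : ℂ) * (ui x : ℂ) * Complex.I_sq
  refine ⟨_, hex, fun u hu => ?_⟩
  obtain ⟨w, hw⟩ : ∃ w, w = fun x => (ur x : ℂ) + (ui x : ℂ) * Complex.I := ⟨_, rfl⟩
  rw [← hw] at hex ⊢
  obtain ⟨v, hv⟩ : ∃ v : (Fin d → ℤ) → ℂ, v = fun x => u x - w x := ⟨_, rfl⟩
  have hvx : ∀ x, v x = u x - w x := fun x => by rw [hv]
  have hvs : Summable fun x => ‖v x‖ ^ 2 := by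
    refine Summable.of_nonneg_of_le (fun x => sq_nonneg _) (fun x => ?_)
      ((hu.sq.add hex.sq).mul_left 2)
    rw [hvx]
    have k4 := norm_sub_le (u x) (w x)
    have k6 : ‖u x - w x‖ ^ 2 ≤ (‖u x‖ + ‖w x‖) ^ 2 := pow_le_pow_left₀ (norm_nonneg _) k4 2
    nlinarith [sq_nonneg (‖u x‖ - ‖w x‖)]
  have hve : ∀ x, H σ ξ v x = ((E : ℂ) + (η : ℂ) * Complex.I) * v x := by
    intro x
    have h1 := hu.eq x
    have h2 := hex.eq x
    rw [← h2] at h1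
    have e1 : H σ ξ v x = H σ ξ u x - H σ ξ w x := by
      unfold H
      have e2 : ∑ i : Fin d, (v (x + Pi.single i 1) + v (x - Pi.single i 1)) =
          ∑ i : Fin d, (u (x + Pi.single i 1) + u (x - Pi.single i 1)) -
          ∑ i : Fin d, (w (x + Pi.single i 1) + w (x - Pi.single i 1)) := by
        rw [← Finset.sum_sub_distrib]
        refine Finset.sum_congr rfl fun i _ => ?_
        rw [hvx, hvx]
        ring
      rw [e2, hvx]
      ring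
    rw [e1, hvx]
    linear_combination h1
  have hLS : Pool.Agent.TH794.FG.LS d σ ξ (fun _ => 0) (fun _ => 0) E η (fun x => (v x).re)
      (fun x => (v x).im) := by
    have hn : ∀ x, ‖v x‖ ^ 2 = (v x).re ^ 2 + (v x).im ^ 2 := by
      intro x
      rw [← Complex.normSq_eq_norm_sq, Complex.normSq_apply]
      ring
    refine ⟨?_, ?_, fun x => ?_, fun x => ?_⟩
    · refine Summable.of_nonneg_of_le (fun x => sq_nonneg _) (fun x => ?_) hvs
      rw [hn x]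
      nlinarith [sq_nonneg (v x).im]
    · refine Summable.of_nonneg_of_le (fun x => sq_nonneg _) (fun x => ?_) hvs
      rw [hn x]
      nlinarith [sq_nonneg (v x).re]
    · have h3 := congrArg Complex.re (hve x)
      unfold H at h3
      simp at h3
      linarith
    · have h3 := congrArg Complex.im (hve x)
      unfold H at h3
      simp at h3
      linarith
  have h5 := Pool.Agent.TH794.QD.norm2 hLS (by simp) (by simp) hη
  simp only [ne_eq, OfNat.ofNat_ne_zero, not_false_eq_true, zero_pow, tsum_zero, add_zero] at h5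
  funext x
  have k1 := hLS.sr.le_tsum x fun y _ => sq_nonneg _
  have k2 := hLS.si.le_tsum x fun y _ => sq_nonneg _
  have k3 : ∑' x, (v x).re ^ 2 + ∑' x, (v x).im ^ 2 ≤ 0 := by
    by_contra hcon
    push Not at hcon
    have : 0 < η ^ 2 * (∑' x, (v x).re ^ 2 + ∑' x, (v x).im ^ 2) := by positivity
    linarith
  have k4 : (v x).re ^ 2 = 0 := le_antisymm (by linarith [sq_nonneg (v x).im]) (sq_nonneg _)
  have k5 : (v x).im ^ 2 = 0 := le_antisymm (by linarith [sq_nonneg (v x).re]) (sq_nonneg _)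
  have k6 : v x = 0 := Complex.ext (by simpa using k4) (by simpa using k5)
  rw [hvx] at k6
  exact sub_eq_zero.1 k6

theorem charFn_eq {d : ℕ} (a : Fin d → ℤ) (p : Fin d → ℝ) (u : (Fin d → ℤ) → ℂ) :
    charFn a p u = ∑' x, Pool.Agent.TH794.HK.ph p (x - a) * ((‖u x‖ ^ 2 : ℝ) : ℂ) := by
  unfold charFn Pool.Agent.TH794.HK.ph
  refine tsum_congr fun x => ?_
  congr 4
  refine Finset.sum_congr rfl fun i _ => ?_
  simp only [Pi.sub_apply, Int.cast_sub]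

theorem profile_eq (d : ℕ) (s P t : ℝ) (hs : 0 < s) :
    profile d s P t = Pool.Agent.V11260.QT.Lp d (g0 d) (g1 d) (2 * P / s * t) := by
  unfold profile Pool.Agent.V11260.QT.Lp
  rw [setIntegral_congr_set (Pool.Agent.V11260.QT.S0_ae d).symm]
  congr 1
  refine setIntegral_congr_fun (Pool.Agent.V11260.QT.S0_meas d) fun E hE => ?_
  congr 2
  by_cases h : (g0 d E).im = 0
  · rw [h]
    simp
  · field_simp

/-- **Theorem.** -/
theorem result (d : ℕ) (hd : 3 ≤ d) :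
    (∀ E : ℝ, 0 < |E| → |E| < 2 * d → 0 < (g1 d E).im ∧ (g1 d E).im ≤ (g0 d E).im) ∧
    Real.pi⁻¹ * ∫ E in Icc (-(2 * d : ℝ)) (2 * d), (g0 d E).im = 1 ∧
    (∀ (σ : ℝ) (ξ : (Fin d → ℤ) → ℝ) (a : Fin d → ℤ), ∃! ψ, IsEvolution σ ξ a ψ) ∧
    ∀ K ε κ : ℝ, 0 ≤ K → 0 < ε → 0 < κ → ∃ σ₀ : ℝ, 0 < σ₀ ∧ ∀ σ : ℝ, 0 < σ → σ ≤ σ₀ →
      ∃ G : Set ((Fin d → ℤ) → ℝ), MeasurableSet G ∧
        1 - 2 * Real.exp (-σ ^ (-(1 / 600) : ℝ)) ≤
          (Measure.infinitePi fun _ : Fin d → ℤ => gaussianReal 0 1).real G ∧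
        ∀ ξ ∈ G, ∀ a : Fin d → ℤ, ‖a‖ ≤ Real.exp (σ ^ (-(1 / 600) : ℝ)) →
          -- real time
          (∀ ψ, IsEvolution σ ξ a ψ → ∀ T : ℝ, σ ^ (-(2 + 1 / 79) : ℝ) ≤ T →
            T ≤ σ ^ (-(2 + 1 / 45) : ℝ) → ∀ p : Fin d → ℝ, ∑ i, p i ^ 2 ≤ K * σ ^ 2 / T →
              IntegrableOn (fun t => charFn a p (ψ t)) (Ioc 0 T) ∧
              ‖(T : ℂ)⁻¹ * ∫ t in Ioc (0 : ℝ) T, (charFn a p (ψ t) -
                ((profile d (σ ^ 2) (∑ i, p i ^ 2) t : ℝ) : ℂ))‖ ≤ ε) ∧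
          -- every energy of the bulk
          ∀ E : ℝ, |E| ≤ 2 * d - κ → ∀ η : ℝ, σ ^ (2 + 1 / 44 : ℝ) ≤ η →
            η ≤ σ ^ (2 + 1 / 80 : ℝ) → (∃! u, IsGreen σ ξ a E η u) ∧
            ∀ u, IsGreen σ ξ a E η u → ∀ p : Fin d → ℝ, ∑ i, p i ^ 2 ≤ K * (η * σ ^ 2) →
              ‖(η : ℂ) * charFn a p u - ((profileRes d (σ ^ 2) (∑ i, p i ^ 2) η E : ℝ) : ℂ)‖ ≤
                σ ^ (1 / 201 : ℝ) := by
  have hO := Pool.Agent.W918.BK.Osc.osc
  have hES := Pool.Agent.W193.BK.ES.es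
  have hTH := Pool.Agent.W261.BK.third Pool.Agent.W540.BK.fac
  have hFL := Pool.Agent.W240.BK.fluct (Pool.Agent.W240.BK.var Pool.Agent.W193.BK.ES.es)
  have hIN := Pool.Agent.W475.BK.inv
  have hSU := Pool.Agent.W975.BK.sup
  have hQB := Pool.Agent.W465.BK.qb (Pool.Agent.W240.BK.two Pool.Agent.W918.BK.Osc.osc)
  have hLO := Pool.Agent.W475.BK.low
  have hAD := Pool.Agent.W790.BK.ADM.adm
  have hFA := Pool.Agent.W540.BK.fac
  have hg := Pool.Agent.V11324.GD.g_lim hES hTH hFL hIN hSU hQB hLO hAD hFA hO d hd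
  obtain ⟨hgi, hm, -⟩ := Pool.Agent.V11324.GD.prof_det hO d (by omega)
    (fun E => Pool.Agent.TH794.QD.GF (Pool.Agent.TH794.QD.F0 d) (E : ℂ))
    (fun E => Pool.Agent.TH794.QD.GF (Pool.Agent.TH794.QD.F1 d) (E : ℂ)) hg
  refine ⟨fun E h1 h2 => ?_, ?_, fun σ ξ a => evo_unique σ ξ a, ?_⟩
  · obtain ⟨-, -, k3, k4⟩ := hg E ⟨h1, h2⟩
    exact ⟨k3, k4⟩
  · rw [setIntegral_congr_set (Pool.Agent.V11260.QT.S0_ae d).symm]
    have e1 : ∫ E in Pool.Agent.V11260.QT.S0 d, (g0 d E).im = Real.pi := hm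
    rw [e1, inv_mul_cancel₀ Real.pi_pos.ne']
  intro K ε κ hK hε hκ
  obtain ⟨l0, hl0, hprof⟩ := Pool.Agent.V11324.GD.gaussT hES hTH hFL hIN hSU hQB hLO hAD hFA hO d hd
    K (ε / 2) hK (by positivity)
  obtain ⟨l1, hl1, hres⟩ := Pool.Agent.V11324.GD.gaussL hES hTH hFL hIN hSU hQB hLO hAD hFA hO d hd
    (min κ 1) (lt_min hκ one_pos) (min_le_right _ _) K hK
  refine ⟨min l0 l1, lt_min hl0 hl1, fun σ hσ hσ0 => ?_⟩
  obtain ⟨G1, hG1, hP1, hL1⟩ := hprof σ hσ (hσ0.trans (min_le_left _ _))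
  obtain ⟨G2, hG2, hP2, hL2⟩ := hres σ hσ (hσ0.trans (min_le_right _ _))
  refine ⟨G1 ∩ G2, hG1.inter hG2, ?_, fun ξ hξ a ha => ⟨fun ψ hψ T hT1 hT2 p hp => ?_,
    fun E hE η hη1 hη2 => ?_⟩⟩
  · have h1 := measureReal_union_add_inter
      (μ := Measure.infinitePi fun _ : Fin d → ℤ => gaussianReal 0 1) (s := G1) (t := G2) hG2
    have h2 : (Measure.infinitePi fun _ : Fin d → ℤ => gaussianReal 0 1).real (G1 ∪ G2) ≤ 1 :=
      measureReal_le_one
    linarith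
  · have hT : 0 < T := lt_of_lt_of_le (Real.rpow_pos_of_pos hσ _) hT1
    have hψ' := evo_conj hψ
    rw [le_div_iff₀ hT] at hp
    obtain ⟨b1, b2⟩ := hL1 ξ hξ.1 a ha _ hψ' T hT1 hT2 p hp
    have hs : 0 < σ ^ 2 := by positivity
    have hLm := Pool.Agent.V11260.QT.Lp_meas d (g0 d) (g1 d) (fun E hE => (hg E hE).1)
      (fun E hE => (hg E hE).2.1)
    have hP0 : 0 ≤ ∑ i, p i ^ 2 := by positivity
    have h5 := Pool.Agent.V11260.QT.prof_cx hψ' p T (ε / 2)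
      (fun s => Pool.Agent.V11260.QT.Lp d (g0 d) (g1 d) (2 * (∑ i, p i ^ 2) / σ ^ 2 * s))
      (hLm.comp (measurable_const_mul _))
      (fun s hs' => Pool.Agent.V11260.QT.Lp_mem d (g0 d) (g1 d) (fun E hE => by
        obtain ⟨-, -, k3, k4⟩ := hg E hE
        exact ⟨by rw [g0_eq]; linarith, by rw [g1_eq]; exact k3.le⟩) hgi hm _ (by positivity)) b1 b2
    have hch : ∀ t, charFn a p (ψ t) = ∑' x, Pool.Agent.TH794.HK.ph p (x - a) *
        ((‖(starRingEnd ℂ) (ψ t x)‖ ^ 2 : ℝ) : ℂ) := by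
      intro t
      rw [charFn_eq]
      simp only [RCLike.norm_conj]
    refine ⟨by
      simp only [hch]
      exact Pool.Agent.V11260.QT.ch_int hψ' p T, ?_⟩
    rw [norm_mul, norm_inv, Complex.norm_real, Real.norm_of_nonneg hT.le,
      inv_mul_le_iff₀ hT]
    simp only [hch, profile_eq d _ _ _ hs]
    refine h5.trans (le_of_eq ?_)
    ring
  · have hη0 : 0 < η := lt_of_lt_of_le (Real.rpow_pos_of_pos hσ _) hη1
    refine ⟨green_unique σ ξ a E η hη0, fun u hu p hp => ?_⟩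
    have hE' : |E| ≤ 2 * d - min κ 1 := by
      have := min_le_left κ 1
      linarith
    have h1 := hL2 ξ hξ.2 a ha E hE' η hη1 hη2 _ (green_rs hu) p hp
    have e1 : charFn a p u = ∑' x, Pool.Agent.TH794.HK.ph p (x - a) *
        ((‖-(starRingEnd ℂ) (u x)‖ ^ 2 : ℝ) : ℂ) := by
      rw [charFn_eq]
      simp only [norm_neg, RCLike.norm_conj]
    rw [e1]
    exact h1

end Pool.Agent.Results.MP_1906c1_mp.GaussianQuantumDiffusion
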