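import Pool.Agent.V1176.PLPow

/-!
The lattice Laplacian with the i.i.d. Gaussian potential of Q1, perturbed by an arbitrarily weak
hopping `± κ (x - y)` with random signs and `|κ z|` of order `|z| ^ (-a)`, `d / 2 < a < d`:
at every disorder strength the operator is almost surely essentially self-adjoint and has no
eigenvalues.
-/

namespace Pool.Agent.Results.MP_1906c1_mp.RandomSignHopping

open MeasureTheory ProbabilityTheory

noncomputable section

/-- The law of the potential: independent centred Gaussian variables `V x` of variance `v`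
(for `v = σ ^ 2` this is the law of `σ ξ`). -/
def potentialLaw (d : ℕ) (v : NNReal) : Measure ((Fin d → ℤ) → ℝ) :=
  Measure.infinitePi fun _ : Fin d → ℤ => gaussianReal 0 v

/-- The law of the signs: independent fair coins, one for every unordered pair of sites. -/
def signLaw (d : ℕ) : Measure (Sym2 (Fin d → ℤ) → Bool) :=
  Measure.infinitePi fun _ : Sym2 (Fin d → ℤ) => (PMF.uniformOfFintype Bool).toMeasure

/-- `(H ψ) (x) = ∑_y T (x, y) ψ (y) + ∑_y ε_{xy} κ (x - y) ψ (y) + V (x) ψ (x)`, where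
`ε_{xy} = ± 1` is the sign of the pair `{x, y}`. -/
def H {d : ℕ} (T : (Fin d → ℤ) → (Fin d → ℤ) → ℝ) (κ : (Fin d → ℤ) → ℝ)
    (s : Sym2 (Fin d → ℤ) → Bool) (V : (Fin d → ℤ) → ℝ) (ψ : (Fin d → ℤ) → ℂ)
    (x : Fin d → ℤ) : ℂ :=
  (∑' y, (T x y : ℂ) * ψ y) +
    (∑' y, (((if s s(x, y) then 1 else -1) * κ (x - y) : ℝ) : ℂ) * ψ y) + (V x : ℂ) * ψ x

/-- The lattice Laplacian of the problem, `∑_{|y-x|=1} ψ (y)`, as a kernel. -/
def lap (d : ℕ) (x y : Fin d → ℤ) : ℝ := if ∑ i, |x i - y i| = 1 then 1 else 0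

/-- `T` is symmetric, zero on the diagonal, of finite range and with bounded row sums. -/
def ShortRange {d : ℕ} (T : (Fin d → ℤ) → (Fin d → ℤ) → ℝ) : Prop :=
  (∀ x y, T x y = T y x) ∧ (∀ x, T x x = 0) ∧ (∃ ρ : ℝ, ∀ x y, ρ < ‖x - y‖ → T x y = 0) ∧
    ∃ b : ℝ, ∀ x (F : Finset (Fin d → ℤ)), ∑ y ∈ F, |T x y| ≤ b

/-- The equation `H ψ = z ψ` has no non-zero square summable solution, for any complex `z`. -/
def NoSolution {d : ℕ} (T : (Fin d → ℤ) → (Fin d → ℤ) → ℝ) (κ : (Fin d → ℤ) → ℝ)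
    (s : Sym2 (Fin d → ℤ) → Bool) (V : (Fin d → ℤ) → ℝ) : Prop :=
  ∀ (z : ℂ) (ψ : (Fin d → ℤ) → ℂ), Summable (fun x => ‖ψ x‖ ^ 2) →
    (∀ x, H T κ s V ψ x = z * ψ x) → ψ = 0

theorem lap_short (d : ℕ) : ShortRange (lap d) := by
  have hle : ∀ (x y : Fin d → ℤ), lap d x y ≠ 0 → ‖x - y‖ ≤ 1 := by
    intro x y h
    unfold lap at h
    by_cases h1 : ∑ i, |x i - y i| = 1
    · rw [pi_norm_le_iff_of_nonneg zero_le_one]
      intro i
      have h2 : |x i - y i| ≤ 1 := by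
        rw [← h1]
        exact Finset.single_le_sum (f := fun i => |x i - y i|) (fun j _ => abs_nonneg _)
          (Finset.mem_univ i)
      rw [Pi.sub_apply, Int.norm_eq_abs]
      exact_mod_cast h2
    · rw [if_neg h1] at h
      exact absurd rfl h
  refine ⟨?_, ?_, ⟨1, fun x y h => ?_⟩, ?_⟩
  · intro x y
    unfold lap
    simp_rw [abs_sub_comm (x _)]
  · intro x
    unfold lap
    simp
  · by_contra hne
    have := hle x y hne
    linarith
  · refine ⟨((H10PL.ball_finite (0 : Fin d → ℤ) 1).toFinset.card : ℝ), fun x F => ?_⟩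
    classical
    have h1 : ∑ y ∈ F, |lap d x y| ≤ ∑ y ∈ F, if ‖x - y‖ ≤ 1 then (1 : ℝ) else 0 := by
      refine Finset.sum_le_sum fun y _ => ?_
      by_cases h : lap d x y = 0
      · rw [h, abs_zero]
        split_ifs <;> norm_num
      · rw [if_pos (hle x y h)]
        unfold lap
        split_ifs <;> norm_num
    refine h1.trans ?_
    rw [← Finset.sum_filter, Finset.sum_const, nsmul_eq_mul, mul_one, Nat.cast_le]
    refine Finset.card_le_card_of_injOn (fun y => x - y) ?_ ?_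
    · intro y hy
      have := (Finset.mem_filter.1 hy).2
      rw [Finset.mem_coe, Set.Finite.mem_toFinset]
      simpa using this
    · intro y _ w _ hyw
      simpa using hyw

theorem bridge {d : ℕ} {T : (Fin d → ℤ) → (Fin d → ℤ) → ℝ} {κ : (Fin d → ℤ) → ℝ} {ρ b : ℝ}
    (h : H10PL.Adm T κ ρ b) (s : Sym2 (Fin d → ℤ) → Bool) (V : (Fin d → ℤ) → ℝ)
    (ψ : (Fin d → ℤ) → ℂ) (hψ : Summable fun x => ‖ψ x‖ ^ 2) (x : Fin d → ℤ) :
    H T κ s V ψ x = (∑' w, (H10PL.Kf T κ s x w : ℂ) * ψ w) + (V x : ℂ) * ψ x := by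
  have hsq : ∀ f : (Fin d → ℤ) → ℝ, Summable (fun w => f w ^ 2) →
      Summable fun w => (f w : ℂ) * ψ w := by
    intro f hf
    apply Summable.of_norm
    have h1 := (H10PL.cs_tsum (f := fun w => |f w|) (g := fun w => ‖ψ w‖)
      (by simpa [sq_abs] using hf) hψ).1
    refine h1.congr fun w => ?_
    rw [norm_mul, Complex.norm_real, Real.norm_eq_abs]
  have hT : Summable fun w => T x w ^ 2 :=
    summable_of_sum_le (fun w => sq_nonneg _) (fun F => H10PL.T0_sq_sum h x F)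
  have hκ : Summable fun w => ((if s s(x, w) then (1 : ℝ) else -1) * κ (x - w)) ^ 2 := by
    have h3 : Summable fun w => κ (x - w) ^ 2 := by
      have := (Equiv.subLeft x).summable_iff.mpr h.κsq
      exact this
    refine h3.congr fun w => ?_
    split_ifs <;> ring
  unfold H
  rw [← (hsq _ hT).tsum_add (hsq _ hκ)]
  congr 2
  funext w
  unfold H10PL.Kf H10PL.sg
  push_cast
  ring

/-- `κ` is an even profile without diagonal part, `∑ (1 + ‖z‖ ^ θ) κ z ^ 2 < ∞` for some `θ > 0`,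
and `κ` is of long range: there are finite sets `S` of displacements on which `|κ|` is comparable
to a number `β`, with `β * #S` arbitrarily large. -/
def LongRange {d : ℕ} (κ : (Fin d → ℤ) → ℝ) : Prop :=
  κ 0 = 0 ∧ (∀ z, κ (-z) = κ z) ∧ Summable (fun z => κ z ^ 2) ∧
    (∃ θ : ℝ, 0 < θ ∧ Summable fun z => ‖z‖ ^ θ * κ z ^ 2) ∧
    ∃ B : ℝ, ∀ N : ℝ, ∃ (S : Finset (Fin d → ℤ)) (β : ℝ), 0 ∉ S ∧ 0 < β ∧
      (∀ z ∈ S, β ≤ |κ z| ∧ |κ z| ≤ B * β) ∧ N ≤ β * S.card

/-- Power laws `|κ z| ≈ ‖z‖ ^ (-a)` with `d / 2 < a < d` are of long range, with any constants. -/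
theorem power_law (d : ℕ) (hd : 1 ≤ d) (a c C : ℝ) (ha1 : (d : ℝ) / 2 < a) (ha2 : a < d)
    (hc : 0 < c) (κ : (Fin d → ℤ) → ℝ) (hκ0 : κ 0 = 0) (hκs : ∀ z, κ (-z) = κ z)
    (hκ : ∀ z, z ≠ 0 → c * ‖z‖ ^ (-a) ≤ |κ z| ∧ |κ z| ≤ C * ‖z‖ ^ (-a)) : LongRange κ := by
  have h2 : ∀ z, z ≠ 0 → |κ z| ≤ C * ‖z‖ ^ (-a) := fun z hz => (hκ z hz).2
  have ha0 : 0 < a := lt_of_le_of_lt (by positivity) ha1
  have hs0 := V1176PL.kap_summable (θ := 0) hκ0 h2 (by linarith)
  have hs : Summable fun z => κ z ^ 2 := by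
    refine hs0.congr fun z => ?_
    rw [Real.rpow_zero, one_mul]
  have hs1 := V1176PL.kap_summable (θ := a - d / 2) hκ0 h2 (by linarith)
  exact ⟨hκ0, hκs, hs, ⟨a - d / 2, by linarith, hs1⟩, ⟨_,
    V1176PL.kap_long (by omega) hc ha0 ha2 (fun z hz => (hκ z hz).1) h2⟩⟩

/-- **Complete delocalization by weak random-sign long-range hopping.** For every dimension, every
variance `v ≠ 0` of the Gaussian potential, every short range kernel `T` (such as the Laplacian,
`lap_short`) and every long range profile `κ` (such as the power laws of `power_law`), almost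
surely `H ψ = z ψ` has no non-zero square summable solution, for any complex `z`. -/
theorem result (d : ℕ) (v : NNReal) (hv : v ≠ 0) (T : (Fin d → ℤ) → (Fin d → ℤ) → ℝ)
    (hT : ShortRange T) (κ : (Fin d → ℤ) → ℝ) (hκ : LongRange κ) :
    ∀ᵐ q ∂((potentialLaw d v).prod (signLaw d)), NoSolution T κ q.2 q.1 := by
  obtain ⟨h1, h2, ⟨ρ, h3⟩, ⟨b, h4⟩⟩ := hT
  obtain ⟨hκ0, hκs, hκ2, ⟨θ, hθ, hκθ⟩, ⟨B, hlong⟩⟩ := hκ
  have h : H10PL.Adm T κ (max ρ 0) b :=
    ⟨h1, h2, fun y w hyw => h3 y w (lt_of_le_of_lt (le_max_left _ _) hyw), h4, hκ0, hκs, hκ2⟩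
  have hmain := V1176PL.no_sol h (le_max_right _ _) v hv hθ hκθ (B := B) hlong
  filter_upwards [hmain] with q hq z ψ hψ heq
  refine hq z ψ hψ fun y => ?_
  rw [← bridge h q.2 q.1 ψ hψ y]
  exact heq y

end

end Pool.Agent.Results.MP_1906c1_mp.RandomSignHopping
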